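import Pool.Agent.H104.MZ.Stm

/-! # Fourier identity for the number of sign vectors with vanishing moments

Job FOU1 of project MZ of helper104 (MP_efea25_an). -/

set_option autoImplicit false

open Polynomial Finset

namespace Pool.Agent.Q162.MZ

open Pool.Agent.H104.MZ

/-- the sign -/
def sg (s : Finset ℕ) (j : ℕ) : ℤ := if j ∈ s then 1 else -1

/-- the moments -/
def mo (N : ℕ) (s : Finset ℕ) (k : ℕ) : ℤ := ∑ j ∈ range N, sg s j * ((j.choose k : ℕ) : ℤ)

theorem mo_bound (N m k : ℕ) (s : Finset ℕ) (hN : 1 ≤ N) (hk : k < m) :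
    |mo N s k| ≤ ((N ^ m : ℕ) : ℤ) := by
  have h1 : |mo N s k| ≤ ∑ j ∈ range N, ((j.choose k : ℕ) : ℤ) := by
    refine (abs_sum_le_sum_abs _ _).trans (sum_le_sum fun j _ => ?_)
    rw [abs_mul]
    have h : |sg s j| = 1 := by unfold sg; split_ifs <;> simp
    rw [h, one_mul, Nat.abs_cast]
  refine h1.trans ?_
  have h2 : ∑ j ∈ range N, (j.choose k) ≤ N ^ m := by
    calc ∑ j ∈ range N, (j.choose k) ≤ ∑ _j ∈ range N, N ^ k := by
          refine sum_le_sum fun j hj => (Nat.choose_le_pow j k).trans ?_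
          exact Nat.pow_le_pow_left (mem_range.1 hj).le k
      _ = N ^ (k + 1) := by rw [sum_const, card_range, smul_eq_mul, pow_succ']
      _ ≤ N ^ m := Nat.pow_le_pow_right hN hk
  exact_mod_cast h2

theorem expand_prod (N m Λ : ℕ) (t : Fin m → ℕ) :
    ((∏ j ∈ range N, (2 * Real.cos (Real.pi * (2 * (∑ k : Fin m, (t k : ℝ) * ((j.choose k : ℕ) : ℝ)) / Λ))) : ℝ) : ℂ) =
      ∑ s ∈ (range N).powerset, ∏ k : Fin m,
        (Complex.exp (2 * Real.pi * Complex.I / Λ) ^ (mo N s k)) ^ (t k) := by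
  set θ : ℕ → ℝ := fun j => Real.pi * (2 * (∑ k : Fin m, (t k : ℝ) * ((j.choose k : ℕ) : ℝ)) / Λ) with hθ
  rw [Complex.ofReal_prod]
  have h1 : ∀ j ∈ range N, ((2 * Real.cos (θ j) : ℝ) : ℂ) =
      Complex.exp ((θ j : ℂ) * Complex.I) + Complex.exp (-(θ j : ℂ) * Complex.I) := by
    intro j _
    rw [Complex.ofReal_mul, Complex.ofReal_cos, Complex.ofReal_ofNat, Complex.two_cos]
  rw [prod_congr rfl h1, Finset.prod_add]
  refine sum_congr rfl fun s hs => ?_
  have hs' : s ⊆ range N := mem_powerset.1 hs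
  have h2 : (∏ i ∈ s, Complex.exp ((θ i : ℂ) * Complex.I)) *
      ∏ i ∈ range N \ s, Complex.exp (-(θ i : ℂ) * Complex.I) =
      ∏ i ∈ range N, Complex.exp ((sg s i : ℂ) * ((θ i : ℂ) * Complex.I)) := by
    rw [← Finset.prod_sdiff hs', mul_comm]
    congr 1
    · refine prod_congr rfl fun i hi => ?_
      have : i ∉ s := (mem_sdiff.1 hi).2
      simp [sg, this]
    · refine prod_congr rfl fun i hi => ?_
      simp [sg, hi]
  rw [h2, ← Complex.exp_sum]
  have h3 : ∀ k : Fin m, (Complex.exp (2 * Real.pi * Complex.I / Λ) ^ (mo N s k)) ^ (t k) =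
      Complex.exp ((t k : ℂ) * ((mo N s k : ℂ) * (2 * Real.pi * Complex.I / Λ))) := by
    intro k
    rw [← Complex.exp_int_mul, ← Complex.exp_nat_mul]
  rw [prod_congr rfl fun k _ => h3 k, ← Complex.exp_sum]
  congr 1
  simp only [hθ, mo]
  push_cast
  simp only [Finset.mul_sum, Finset.sum_mul, Finset.sum_div]
  rw [Finset.sum_comm]
  refine sum_congr rfl fun k _ => sum_congr rfl fun j _ => ?_
  ring

/-- Fourier identity -/
theorem t_FOU1 : S_FOU1 := by
  intro N m Λ hΛ hG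
  have hN : 1 ≤ N := by
    by_contra h
    have h0 : N = 0 := by omega
    subst h0
    exact hG ⟨fun _ => 1, fun _ => Or.inl rfl, fun k _ => by simp⟩
  have hΛ0 : Λ ≠ 0 := (lt_of_le_of_lt (Nat.zero_le _) hΛ).ne'
  have hz := Complex.isPrimitiveRoot_exp Λ hΛ0
  have hsum : ((∑ t ∈ Fintype.piFinset (fun _ : Fin m => range Λ), ∏ j ∈ range N,
      (2 * Real.cos (Real.pi * (2 * (∑ k : Fin m, (t k : ℝ) * ((j.choose k : ℕ) : ℝ)) / Λ))) : ℝ) : ℂ) = 0 := by
    rw [Complex.ofReal_sum, sum_congr rfl fun t _ => expand_prod N m Λ t, Finset.sum_comm]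
    refine sum_eq_zero fun s _ => ?_
    rw [← Finset.prod_univ_sum (fun _ : Fin m => range Λ)
      (fun k τ => (Complex.exp (2 * Real.pi * Complex.I / Λ) ^ (mo N s k)) ^ τ)]
    have hex : ∃ k : Fin m, mo N s k ≠ 0 := by
      by_contra h
      push Not at h
      refine hG ⟨sg s, fun j => ?_, fun k hk => h ⟨k, hk⟩⟩
      unfold sg
      split_ifs
      · exact Or.inl rfl
      · exact Or.inr rfl
    obtain ⟨k, hk⟩ := hex
    refine prod_eq_zero (mem_univ k) ?_
    have hne : Complex.exp (2 * Real.pi * Complex.I / Λ) ^ (mo N s k) ≠ 1 := by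
      intro h
      rw [hz.zpow_eq_one_iff_dvd] at h
      refine hk (Int.eq_zero_of_abs_lt_dvd h ?_)
      refine lt_of_le_of_lt (mo_bound N m k s hN k.2) ?_
      exact_mod_cast hΛ
    rw [geom_sum_eq hne]
    have h1 : (Complex.exp (2 * Real.pi * Complex.I / Λ) ^ (mo N s k)) ^ Λ = 1 := by
      rw [← zpow_natCast, zpow_comm, zpow_natCast, hz.pow_eq_one, one_zpow]
    rw [h1, sub_self, zero_div]
  have hsum' := Complex.ofReal_eq_zero.1 hsum
  have h2 : ∀ t : Fin m → ℕ, ∏ j ∈ range N,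
      (2 * Real.cos (Real.pi * (2 * (∑ k : Fin m, (t k : ℝ) * ((j.choose k : ℕ) : ℝ)) / Λ))) =
      2 ^ N * ∏ j ∈ range N,
        Real.cos (Real.pi * (2 * (∑ k : Fin m, (t k : ℝ) * ((j.choose k : ℕ) : ℝ)) / Λ)) := by
    intro t
    rw [prod_mul_distrib, prod_const, card_range]
  rw [sum_congr rfl fun t _ => h2 t, ← mul_sum] at hsum'
  rcases mul_eq_zero.1 hsum' with h | h
  · exact absurd h (by positivity)
  · exact h

end Pool.Agent.Q162.MZ
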